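import Pool.Agent.H77.BC.Targets

/-!
# Row FCN of board bcp_modules: the additive group of an infinite definable field is connected
-/

set_option autoImplicit false

open Set Matrix Pool.Agent.H77.BC

namespace Pool.Agent.H60.BCP

theorem pf_FCN {M : Type} (U : RU M) (hA : RKA U) (hB : RKB U) (hG : GRA U) (hD : GRD U) :
    FCN U := by
  intro K _ _ _ _ A hAD hAR
  have _ : DG U (Multiplicative K) := dgMult (K := K)
  -- the group `l A`
  let sA : {l : K // l ≠ 0} → AddSubgroup K := fun l => A.comap (AddMonoidHom.mulLeft (l : K)⁻¹)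
  have hmem : ∀ (l : {l : K // l ≠ 0}) (x : K), x ∈ sA l ↔ (l : K)⁻¹ * x ∈ A := fun l x => Iff.rfl
  let s : {l : K // l ≠ 0} → Subgroup (Multiplicative K) := fun l => AddSubgroup.toSubgroup (sA l)
  have hD1 : ∀ l, U.D (sA l : Set K) := by
    intro l
    exact D_subst (p := fun x => x ∈ A) hAD (DFn_mul (DFn_const (l : K)⁻¹) DFn_id)
  have hD2 : ∀ l, U.D (s l : Set (Multiplicative K)) := hD1
  have hR1 : ∀ l, U.R (sA l : Set K) = U.R (A : Set K) := by
    intro l
    have e : (sA l : Set K) = (fun x => (l : K) * x) '' (A : Set K) := by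
      ext x
      rw [SetLike.mem_coe, hmem, mem_image]
      constructor
      · intro hx
        exact ⟨_, hx, mul_inv_cancel_left₀ l.2 x⟩
      · rintro ⟨y, hy, rfl⟩
        rw [inv_mul_cancel_left₀ l.2]
        exact hy
    rw [e]
    exact hB.inj hAD (DFn_mul (DFn_const (l : K)) DFn_id) ⟨0, A.zero_mem⟩
      (mul_right_injective₀ l.2).injOn
  have hidx : ∀ l, (s l).index ≠ 0 := by
    intro l
    have h1 := (hG (⊤ : Subgroup (Multiplicative K)) (s l) Ful.full (hD2 l) le_top).2 (by
      have h2 : U.R ((⊤ : Subgroup (Multiplicative K)) : Set (Multiplicative K)) =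
        U.R (univ : Set K) := rfl
      have h3 : U.R ((s l : Subgroup (Multiplicative K)) : Set (Multiplicative K)) =
        U.R (sA l : Set K) := rfl
      rw [h2, h3, hR1 l]
      exact hAR)
    rwa [Subgroup.relIndex_top_right] at h1
  obtain ⟨J, hJ⟩ := hD s hD2
  have hfin : ∀ J : Finset {l : K // l ≠ 0}, (⨅ j ∈ J, s j).index ≠ 0 := by
    classical
    intro J
    induction J using Finset.induction_on with
    | empty => simp
    | insert a t _ ih =>
      rw [Finset.iInf_insert]
      exact Subgroup.index_inf_ne_zero (hidx a) ih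
  have hbot : (⨅ j ∈ J, s j) ≠ ⊥ := by
    intro h
    apply hfin J
    rw [h, Subgroup.index_bot]
    exact Nat.card_eq_zero_of_infinite
  obtain ⟨x', hx'⟩ := Subgroup.ne_bot_iff_exists_ne_one.1 hbot
  obtain ⟨x, hx⟩ := x'
  have hx1 : x ≠ 1 := fun h => hx' (Subtype.ext h)
  have hx0 : Multiplicative.toAdd (x : Multiplicative K) ≠ 0 := fun h => hx1 h
  refine (AddSubgroup.eq_top_iff' A).2 fun y => ?_
  by_cases hy : y = 0
  · rw [hy]
    exact A.zero_mem
  · have h1 := hJ ⟨Multiplicative.toAdd (x : Multiplicative K) / y, div_ne_zero hx0 hy⟩ hx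
    have h2 : (Multiplicative.toAdd (x : Multiplicative K) / y)⁻¹ *
        Multiplicative.toAdd (x : Multiplicative K) ∈ A := h1
    rwa [inv_div, div_mul_cancel₀ _ hx0] at h2

end Pool.Agent.H60.BCP
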