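import Pool.Agent.H77.BC.Targets

/-!
# Row GRA of board bcp_modules: finite index and rank
-/

set_option autoImplicit false

open Set Pool.Agent.H77.BC

namespace Pool.Agent.H60.BCP

variable {M : Type} {U : RU M}

/-- a finite union of definable sets of rank `r` -/
theorem rk_biUnion (hA : RKA U) {α κ : Type} [Cod M α] (s : Finset κ) (hs : s.Nonempty)
    (X : κ → Set α) (r : ℕ) (h : ∀ k ∈ s, U.D (X k) ∧ (X k).Nonempty ∧ U.R (X k) = r) :
    U.D (⋃ k ∈ s, X k) ∧ (⋃ k ∈ s, X k).Nonempty ∧ U.R (⋃ k ∈ s, X k) = r := by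
  classical
  induction hs using Finset.Nonempty.cons_induction with
  | singleton a =>
    have := h a (Finset.mem_singleton_self a)
    simpa using this
  | cons a s ha hs ih =>
    have h1 := h a (Finset.mem_cons_self a s)
    have h2 := ih fun k hk => h k (Finset.mem_cons_of_mem hk)
    have e : (⋃ k ∈ Finset.cons a s ha, X k) = X a ∪ ⋃ k ∈ s, X k := by
      ext x
      simp
    rw [e]
    refine ⟨D_union h1.1 h2.1, h1.2.1.mono subset_union_left, ?_⟩
    rw [hA.union h1.1 h2.1 h1.2.1 h2.2.1, h1.2.2, h2.2.2, max_self]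

section

variable {Γ : Type} [Group Γ] [Cod M Γ] [DG U Γ]

theorem coset_D (h : Γ) {L : Set Γ} (hL : U.D L) : U.D ((fun x => h * x) '' L) :=
  DFn_image (DFn_gmul (DFn_const h) DFn_id) hL

theorem coset_R (hB : RKB U) (h : Γ) {L : Set Γ} (hL : U.D L) (hne : L.Nonempty) :
    U.R ((fun x => h * x) '' L) = U.R L :=
  hB.inj hL (DFn_gmul (DFn_const h) DFn_id) hne (mul_right_injective h).injOn

end

theorem pf_GRA {M : Type} (U : RU M) (hA : RKA U) (hB : RKB U) : GRA U := by
  intro Γ _ _ _ H L hH hL hLH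
  have hLne : (L : Set Γ).Nonempty := ⟨1, L.one_mem⟩
  constructor
  · intro hidx
    have hfin : Finite (H ⧸ L.subgroupOf H) := by
      have : (L.subgroupOf H).index ≠ 0 := hidx
      exact (Subgroup.index_ne_zero_iff_finite).1 this
    cases nonempty_fintype (H ⧸ L.subgroupOf H)
    have e : (H : Set Γ) = ⋃ q ∈ (Finset.univ : Finset (H ⧸ L.subgroupOf H)),
        (fun x => (q.out : Γ) * x) '' (L : Set Γ) := by
      ext x
      simp only [Finset.mem_univ, iUnion_true, mem_iUnion, mem_image, SetLike.mem_coe]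
      constructor
      · intro hx
        refine ⟨QuotientGroup.mk (⟨x, hx⟩ : H), ?_⟩
        obtain ⟨l, hl⟩ := QuotientGroup.mk_out_eq_mul (L.subgroupOf H) (⟨x, hx⟩ : H)
        refine ⟨((l : H) : Γ)⁻¹, ?_, ?_⟩
        · exact L.inv_mem (Subgroup.mem_subgroupOf.1 l.2)
        · rw [hl]
          simp
      · rintro ⟨q, y, hy, rfl⟩
        exact H.mul_mem q.out.2 (hLH hy)
    have h1 := rk_biUnion hA (Finset.univ : Finset (H ⧸ L.subgroupOf H))
      ⟨QuotientGroup.mk 1, Finset.mem_univ _⟩
      (fun q => (fun x => (q.out : Γ) * x) '' (L : Set Γ)) (U.R (L : Set Γ))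
      (fun q _ => ⟨coset_D _ hL, hLne.image _, coset_R hB _ hL hLne⟩)
    rw [e, h1.2.2]
  · intro hle hidx
    have hinf : Infinite (H ⧸ L.subgroupOf H) := by
      have : (L.subgroupOf H).index = 0 := hidx
      exact (Subgroup.index_eq_zero_iff_infinite).1 this
    let emb := Infinite.natEmbedding (H ⧸ L.subgroupOf H)
    have h1 := hA.split (n := U.R (L : Set Γ))
      (fun i => (fun x => ((emb i).out : Γ) * x) '' (L : Set Γ)) hH
      (fun i => ⟨coset_D _ hL, hLne.image _, by
        rintro _ ⟨y, hy, rfl⟩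
        exact H.mul_mem (emb i).out.2 (hLH hy), (coset_R hB _ hL hLne).ge⟩)
      (by
        intro i j hij
        rw [Set.disjoint_left]
        rintro _ ⟨y, hy, rfl⟩ ⟨z, hz, hyz⟩
        apply hij
        apply emb.injective
        rw [← QuotientGroup.out_eq' (emb i), ← QuotientGroup.out_eq' (emb j), QuotientGroup.eq]
        rw [Subgroup.mem_subgroupOf]
        have h2 : ((emb j).out : Γ) * z = ((emb i).out : Γ) * y := hyz
        have h3 : (((emb i).out⁻¹ * (emb j).out : H) : Γ) = y * z⁻¹ := by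
          rw [Subgroup.coe_mul, Subgroup.coe_inv, inv_mul_eq_iff_eq_mul, ← mul_assoc, ← h2,
            mul_inv_cancel_right]
        rw [h3]
        exact L.mul_mem hy (L.inv_mem hz))
    omega

end Pool.Agent.H60.BCP
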