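import Pool.Agent.H77.BC.Targets

/-!
# Row RNV of board bcp_modules: ranks of the spaces of vectors and matrices
-/

set_option autoImplicit false

open Set Matrix Pool.Agent.H77.BC

namespace Pool.Agent.H60.BCP

variable {M : Type} {U : RU M}

/-- the rank of a power of a definable type -/
theorem rk_pow (hA : RKA U) (hB : RKB U) {α : Type} [Cod M α] [Ful U α] [Nonempty α] (k : ℕ) :
    U.R (univ : Set (Fin k → α)) = k * U.R (univ : Set α) := by
  induction k with
  | zero =>
    rw [Nat.zero_mul]
    exact (hA.fin Ful.full univ_nonempty).2 (Set.toFinite _)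
  | succ k ih =>
    have hf : DFn U (fun p : α × (Fin k → α) => (Fin.cons p.1 p.2 : Fin (k + 1) → α)) := by
      refine DFn_vec fun i => ?_
      refine Fin.cases ?_ (fun j => ?_) i
      · simp only [Fin.cons_zero]
        exact DFn_fst
      · simp only [Fin.cons_succ]
        exact DFn_comp (DFn_apply j) DFn_snd
    have hinj : InjOn (fun p : α × (Fin k → α) => (Fin.cons p.1 p.2 : Fin (k + 1) → α)) univ := by
      intro p _ q _ h
      have h' := Fin.cons_injective2 h
      exact Prod.ext h'.1 h'.2
    have h1 := hB.inj (X := (univ : Set (α × (Fin k → α)))) Ful.full hf univ_nonempty hinj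
    have himg : (fun p : α × (Fin k → α) => (Fin.cons p.1 p.2 : Fin (k + 1) → α)) '' univ =
        univ := by
      ext x
      refine ⟨fun _ => mem_univ _, fun _ => ⟨(x 0, fun i => x i.succ), mem_univ _, ?_⟩⟩
      exact Fin.cons_self_tail x
    rw [himg, ← univ_prod_univ, hB.prod Ful.full Ful.full univ_nonempty univ_nonempty, ih] at h1
    rw [h1]
    ring

theorem pf_RNV {M : Type} (U : RU M) (hA : RKA U) (hB : RKB U) : RNV U := by
  intro K _ _ _ k l
  refine ⟨rk_pow hA hB k, ?_⟩
  have hf : DFn U (fun x : Fin k → (Fin l → K) => (Matrix.of x : Matrix (Fin k) (Fin l) K)) := by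
    refine DFn_mat fun i j => ?_
    simp only [Matrix.of_apply]
    exact DFn_comp (DFn_apply j) (DFn_apply i)
  have hinj : InjOn (fun x : Fin k → (Fin l → K) => (Matrix.of x : Matrix (Fin k) (Fin l) K))
      univ := fun p _ q _ h => Matrix.of.injective h
  have h1 := hB.inj (X := (univ : Set (Fin k → (Fin l → K)))) Ful.full hf univ_nonempty hinj
  have himg : (fun x : Fin k → (Fin l → K) => (Matrix.of x : Matrix (Fin k) (Fin l) K)) '' univ =
      univ := by
    ext x
    exact ⟨fun _ => mem_univ _, fun _ => ⟨Matrix.of.symm x, mem_univ _, rfl⟩⟩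
  rw [himg, rk_pow hA hB k, rk_pow hA hB l] at h1
  rw [h1]
  ring

end Pool.Agent.H60.BCP
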