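import Pool.Agent.H77.BC.Targets

/-!
# Row TYV of board bcp_modules: types of the other vectors
-/

set_option autoImplicit false

open Set Matrix Pool.Agent.H77.BC

namespace Pool.Agent.H60.BCP

variable {K : Type} [Field K] {k : ℕ}

theorem val_inv_mul (g : GL (Fin k) K) :
    ((g⁻¹).val : Matrix (Fin k) (Fin k) K) * g.val = 1 := by
  rw [← Units.val_mul, inv_mul_cancel, Units.val_one]

theorem val_mul_inv (g : GL (Fin k) K) :
    (g.val : Matrix (Fin k) (Fin k) K) * (g⁻¹).val = 1 := by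
  rw [← Units.val_mul, mul_inv_cancel, Units.val_one]

theorem inT_cj (H : Subgroup (GL (Fin k) K)) (g : GL (Fin k) K) (x φ : Fin k → K) :
    InT (cj g H) x φ ↔
      InT H ((g.val : Matrix _ _ K) *ᵥ x) (φ ᵥ* ((g⁻¹).val : Matrix _ _ K)) := by
  constructor
  · rintro ⟨h, hh, he⟩
    refine ⟨g * h * g⁻¹, mem_cj.1 hh, ?_⟩
    rw [Units.val_mul, Units.val_mul, he, mul_add, add_mul, mul_one, val_mul_inv,
      mul_vecMulVec, vecMulVec_mul]
  · rintro ⟨h, hh, he⟩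
    refine ⟨g⁻¹ * h * g, ?_, ?_⟩
    · rw [mem_cj]
      have : g * (g⁻¹ * h * g) * g⁻¹ = h := by group
      rwa [this]
    · rw [Units.val_mul, Units.val_mul, he, mul_add, add_mul, mul_one, val_inv_mul,
        mul_vecMulVec, vecMulVec_mul, mulVec_mulVec, vecMul_vecMul, val_inv_mul, one_mulVec,
        vecMul_one]

theorem mulVec_inj' (g : GL (Fin k) K) {x y : Fin k → K}
    (h : (g.val : Matrix _ _ K) *ᵥ x = (g.val : Matrix _ _ K) *ᵥ y) : x = y := by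
  have := congrArg (fun z => ((g⁻¹).val : Matrix _ _ K) *ᵥ z) h
  simpa only [mulVec_mulVec, val_inv_mul, one_mulVec] using this

theorem vecMul_inj' (g : GL (Fin k) K) {x y : Fin k → K}
    (h : x ᵥ* (g.val : Matrix _ _ K) = y ᵥ* (g.val : Matrix _ _ K)) : x = y := by
  have := congrArg (fun z => z ᵥ* ((g⁻¹).val : Matrix _ _ K)) h
  simpa only [vecMul_vecMul, val_mul_inv, vecMul_one] using this

theorem cj_Pv (g : GL (Fin k) K) (x : Fin k → K) :
    cj g (Pv ((g.val : Matrix _ _ K) *ᵥ x)) = Pv x := by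
  ext h
  rw [mem_cj, mem_Pv, mem_Pv]
  refine exists_congr fun a => ?_
  rw [Units.val_mul, Units.val_mul, mulVec_mulVec, mul_assoc, val_inv_mul, mul_one,
    ← mulVec_mulVec, ← mulVec_smul]
  exact ⟨fun h => mulVec_inj' g h, fun h => by rw [h]⟩

theorem cj_Ph (g : GL (Fin k) K) (χ : Fin k → K) :
    cj g (Ph (χ ᵥ* ((g⁻¹).val : Matrix _ _ K))) = Ph χ := by
  ext h
  rw [mem_cj, mem_Ph, mem_Ph]
  refine exists_congr fun a => ?_
  rw [Units.val_mul, Units.val_mul, vecMul_vecMul, ← mul_assoc, ← mul_assoc, val_inv_mul,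
    one_mul, ← vecMul_vecMul, ← smul_vecMul]
  exact ⟨fun h => vecMul_inj' g⁻¹ h, fun h => by rw [h]⟩

theorem cj_inf (g : GL (Fin k) K) (H L : Subgroup (GL (Fin k) K)) :
    cj g (H ⊓ L) = cj g H ⊓ cj g L := rfl

theorem cj_injective (g : GL (Fin k) K) :
    Function.Injective (cj g : Subgroup (GL (Fin k) K) → Subgroup (GL (Fin k) K)) :=
  Subgroup.comap_injective (MulAut.conj g).surjective

theorem exists_gl (v : Fin (k + 1) → K) (hv : v ≠ 0) :
    ∃ g : GL (Fin (k + 1)) K, (g.val : Matrix _ _ K) *ᵥ e0 = v := by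
  obtain ⟨i, hi⟩ := Function.ne_iff.1 hv
  let B : Matrix (Fin (k + 1)) (Fin (k + 1)) K :=
    ((1 : Matrix (Fin (k + 1)) (Fin (k + 1)) K).updateCol i v).submatrix id (Equiv.swap 0 i)
  have hdet : B.det ≠ 0 := by
    change (Matrix.submatrix _ id (Equiv.swap 0 i)).det ≠ 0
    rw [Matrix.det_permute', ← Matrix.cramer_apply, Matrix.cramer_one]
    have h1 : ((Equiv.Perm.sign (Equiv.swap 0 i) : ℤ) : K) ≠ 0 := by
      rcases Int.units_eq_one_or (Equiv.Perm.sign (Equiv.swap 0 i)) with h | h <;> simp [h]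
    exact mul_ne_zero h1 hi
  refine ⟨Matrix.GeneralLinearGroup.mkOfDetNeZero B hdet, ?_⟩
  funext j
  change (B *ᵥ e0) j = v j
  have h2 : (B *ᵥ e0) j = B j 0 := by
    simp [e0]
  rw [h2]
  simp [B]

theorem pf_TYV : TYV := by
  intro K _ k H
  refine ⟨exists_gl, fun g => ?_⟩
  have hdot : ∀ ψ x : Fin (k + 1) → K,
      ψ ⬝ᵥ ((g.val : Matrix _ _ K) *ᵥ x) = (ψ ᵥ* (g.val : Matrix _ _ K)) ⬝ᵥ x :=
    fun ψ x => dotProduct_mulVec ψ _ x
  have hcan : ∀ ψ : Fin (k + 1) → K,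
      (ψ ᵥ* (g.val : Matrix _ _ K)) ᵥ* ((g⁻¹).val : Matrix _ _ K) = ψ := fun ψ => by
    rw [vecMul_vecMul, val_mul_inv, vecMul_one]
  have hin : ∀ ψ x : Fin (k + 1) → K,
      InT (cj g H) x (ψ ᵥ* (g.val : Matrix _ _ K)) ↔ InT H ((g.val : Matrix _ _ K) *ᵥ x) ψ := by
    intro ψ x
    rw [inT_cj, hcan]
  have hne : ∀ u x : Fin (k + 1) → K, (∀ a : K, u ≠ a • x) →
      ∀ a : K, (g.val : Matrix _ _ K) *ᵥ u ≠ a • ((g.val : Matrix _ _ K) *ᵥ x) := by
    intro u x h a hc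
    rw [← mulVec_smul] at hc
    exact h a (mulVec_inj' g hc)
  refine ⟨?_, ?_, ?_, ?_⟩
  · intro h ψ hψ
    rw [hdot] at hψ
    exact (hin _ _).1 (h _ hψ)
  · rintro ⟨u, h1, h2, h3⟩
    refine ⟨(g.val : Matrix _ _ K) *ᵥ u, hne _ _ h1, ?_, ?_⟩
    · intro ψ hψ hψ'
      rw [hdot] at hψ hψ'
      exact (hin _ _).1 (h2 _ hψ hψ')
    · intro ψ hψ
      rw [hdot]
      refine h3 _ fun t => ?_
      rw [← smul_vecMul]
      exact (hin _ _).2 (hψ t)
  · rintro ⟨χ, h1, h2⟩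
    refine ⟨χ ᵥ* ((g⁻¹).val : Matrix _ _ K), ?_, ?_⟩
    · rw [hdot, vecMul_vecMul, val_inv_mul, vecMul_one]
      exact h1
    · apply cj_injective g
      rw [cj_inf, cj_inf, cj_Pv, cj_Ph]
      exact h2
  · rintro ⟨v', h1, h2⟩
    refine ⟨(g.val : Matrix _ _ K) *ᵥ v', hne _ _ h1, ?_⟩
    apply cj_injective g
    rw [cj_inf, cj_inf, cj_Pv, cj_Pv]
    exact h2

end Pool.Agent.H60.BCP
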